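import Mathlib

/-!
# A temperate frame which is not spatial

The frame is the complete Boolean algebra of regular open subsets of `ℝ` with a new top element
adjoined.
-/

open TopologicalSpace

namespace Pool.Agent.Results.MP_f10132_gt.NonSpatial

universe u v

section Defs

variable {L : Type u} [CompleteLattice L]

/-- Scott-open subsets of a complete lattice: upwards closed, and every (nonempty) directed set
whose supremum lies in the set meets the set. -/
def ScottOpen (U : Set L) : Prop :=
  (∀ a b : L, a ≤ b → a ∈ U → b ∈ U) ∧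
    ∀ D : Set L, D.Nonempty → (∀ a ∈ D, ∀ b ∈ D, ∃ c ∈ D, a ≤ c ∧ b ≤ c) →
      sSup D ∈ U → ∃ d ∈ D, d ∈ U

/-- Filters: nonempty upwards closed subsets in which any two elements have a lower bound. -/
def IsFil (F : Set L) : Prop :=
  F.Nonempty ∧ (∀ a b : L, a ≤ b → a ∈ F → b ∈ F) ∧
    ∀ a ∈ F, ∀ b ∈ F, ∃ c ∈ F, c ≤ a ∧ c ≤ b

/-- The join of two filters. -/
def join (F G : Set L) : Set L := {w | ∃ u ∈ F, ∃ v ∈ G, w = u ⊓ v}

variable (L) in
/-- Locally temperate: the join of two Scott-open filters is Scott-open. -/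
def LocallyTemperate : Prop :=
  ∀ F G : Set L, IsFil F → ScottOpen F → IsFil G → ScottOpen G → ScottOpen (join F G)

variable (L) in
/-- Temperate: locally temperate, and `{⊤}` is Scott-open. -/
def Temperate : Prop := LocallyTemperate L ∧ ScottOpen ({⊤} : Set L)

end Defs

/-! ## Adjoining a top to a complete Boolean algebra without coatoms -/

section General

variable {B : Type u} [CompleteBooleanAlgebra B]

theorem sSup_coe {s : Set (WithTop B)} (h : (⊤ : WithTop B) ∉ s) :
    sSup s = ((sSup {b : B | (b : WithTop B) ∈ s} : B) : WithTop B) := by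
  apply IsLUB.sSup_eq
  constructor
  · intro a ha
    induction a with
    | top => exact absurd ha h
    | coe a => exact WithTop.coe_le_coe.2 (le_sSup ha)
  · intro a ha
    induction a with
    | top => exact le_top
    | coe a => exact WithTop.coe_le_coe.2 (sSup_le fun b hb => WithTop.coe_le_coe.1 (ha hb))

theorem frameAx : Order.Frame.MinimalAxioms (WithTop B) where
  inf_sSup_le_iSup_inf a s := by
    by_cases h : (⊤ : WithTop B) ∈ s
    · exact inf_le_left.trans ((le_inf le_rfl le_top).trans
        (le_iSup₂_of_le (⊤ : WithTop B) h le_rfl))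
    · induction a with
      | top => 
        rw [top_inf_eq]
        exact sSup_le fun b hb => le_iSup₂_of_le b hb (le_inf le_top le_rfl)
      | coe a =>
        rw [sSup_coe h, ← WithTop.coe_inf]
        set c := ⨆ b ∈ s, ((a : WithTop B) ⊓ b) with hc
        induction hcc : c with
        | top => exact le_top
        | coe c' =>
          apply WithTop.coe_le_coe.2
          rw [inf_sSup_eq]
          refine iSup₂_le fun b hb => ?_
          have h1 : (a : WithTop B) ⊓ (b : WithTop B) ≤ c := by
            rw [hc]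
            exact le_iSup₂_of_le (b : WithTop B) hb le_rfl
          rw [hcc, ← WithTop.coe_inf] at h1
          exact WithTop.coe_le_coe.1 h1

/-- The frame `B ∪ {⊤}`. -/
@[instance_reducible]
noncomputable def frame : Order.Frame (WithTop B) := Order.Frame.ofMinimalAxioms frameAx

theorem scott_top : ScottOpen ({⊤} : Set (WithTop B)) := by
  constructor
  · intro a b hab ha
    rw [Set.mem_singleton_iff] at *
    rw [ha] at hab
    exact top_le_iff.1 hab
  · intro D _ _ hs
    by_contra hne
    have h : (⊤ : WithTop B) ∉ D := fun h => hne ⟨⊤, h, rfl⟩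
    rw [Set.mem_singleton_iff, sSup_coe h] at hs
    exact WithTop.coe_ne_top hs

/-- The key lemma: a Scott-open filter containing an element of `B` contains everything. -/
theorem bot_mem (hB : ∀ x : B, x ≠ ⊤ → ∃ y, x < y ∧ y < ⊤) {F : Set (WithTop B)}
    (hF : IsFil F) (hS : ScottOpen F) {b : B} (hb : (b : WithTop B) ∈ F) :
    ((⊥ : B) : WithTop B) ∈ F := by
  by_contra hbot
  obtain ⟨m, -, hm⟩ := zorn_le_nonempty₀ {x : B | (x : WithTop B) ∉ F} (by
    intro c hc hchain y hy
    refine ⟨sSup c, ?_, fun z hz => le_sSup hz⟩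
    intro hmem
    have hD : ((fun x : B => (x : WithTop B)) '' c).Nonempty := ⟨_, ⟨y, hy, rfl⟩⟩
    have hsup : sSup ((fun x : B => (x : WithTop B)) '' c) = ((sSup c : B) : WithTop B) := by
      rw [sSup_coe]
      · congr 2
        ext x
        simp
      · rintro ⟨x, _, hx⟩
        exact WithTop.coe_ne_top hx
    obtain ⟨d, ⟨x, hx, rfl⟩, hd⟩ := hS.2 _ hD (by
      rintro _ ⟨p, hp, rfl⟩ _ ⟨q, hq, rfl⟩
      rcases hchain.total hp hq with h | h
      · exact ⟨_, ⟨q, hq, rfl⟩, WithTop.coe_le_coe.2 h, le_rfl⟩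
      · exact ⟨_, ⟨p, hp, rfl⟩, le_rfl, WithTop.coe_le_coe.2 h⟩) (by rw [hsup]; exact hmem)
    exact hc hx hd) (⊥ : B) hbot
  have hmF : (m : WithTop B) ∉ F := hm.prop
  have hmtop : m ≠ ⊤ := by
    rintro rfl
    exact hmF (hS.1 _ _ (WithTop.coe_le_coe.2 le_top) hb)
  have hgt : ∀ z : B, m < z → (z : WithTop B) ∈ F := by
    intro z hz
    by_contra hzF
    exact absurd (hm.le_of_ge hzF hz.le) (not_le_of_gt hz)
  obtain ⟨y, hmy, hy⟩ := hB m hmtop
  have h1 := hgt y hmy
  have h2 : m < m ⊔ yᶜ := by
    refine lt_of_le_of_ne le_sup_left ?_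
    intro h
    have h3 : yᶜ ≤ m := by rw [h]; exact le_sup_right
    have h4 : y ⊔ yᶜ ≤ y := sup_le le_rfl (h3.trans hmy.le)
    rw [sup_compl_eq_top] at h4
    exact absurd h4 (not_le_of_gt hy)
  obtain ⟨c, hc, hc1, hc2⟩ := hF.2.2 _ h1 _ (hgt _ h2)
  have hcm : c ≤ (m : WithTop B) := by
    have h5 : c ≤ (y : WithTop B) ⊓ ((m ⊔ yᶜ : B) : WithTop B) := le_inf hc1 hc2
    rw [← WithTop.coe_inf, inf_sup_left, inf_compl_eq_bot, sup_bot_eq,
      inf_eq_right.2 hmy.le] at h5
    exact h5
  exact hmF (hS.1 _ _ hcm hc)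

theorem eq_top_or_univ (hB : ∀ x : B, x ≠ ⊤ → ∃ y, x < y ∧ y < ⊤) {F : Set (WithTop B)}
    (hF : IsFil F) (hS : ScottOpen F) : F = {⊤} ∨ F = Set.univ := by
  by_cases h : ∃ b : B, (b : WithTop B) ∈ F
  · right
    obtain ⟨b, hb⟩ := h
    have h1 := bot_mem hB hF hS hb
    ext x
    simp only [Set.mem_univ, iff_true]
    refine hS.1 _ _ ?_ h1
    exact (bot_le : (⊥ : WithTop B) ≤ x)
  · left
    push Not at h
    ext x
    simp only [Set.mem_singleton_iff]
    constructor
    · intro hx
      induction x with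
      | top => rfl
      | coe b => exact absurd hx (h b)
    · rintro rfl
      obtain ⟨z, hz⟩ := hF.1
      exact hS.1 _ _ le_top hz

theorem temperate (hB : ∀ x : B, x ≠ ⊤ → ∃ y, x < y ∧ y < ⊤) : Temperate (WithTop B) := by
  refine ⟨?_, scott_top⟩
  intro F G hF hSF hG hSG
  have htopF : (⊤ : WithTop B) ∈ F := by
    obtain ⟨z, hz⟩ := hF.1
    exact hSF.1 _ _ le_top hz
  have htopG : (⊤ : WithTop B) ∈ G := by
    obtain ⟨z, hz⟩ := hG.1
    exact hSG.1 _ _ le_top hz
  rcases eq_top_or_univ hB hF hSF with h | h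
  · rcases eq_top_or_univ hB hG hSG with h' | h'
    · have : join F G = {⊤} := by
        ext w
        simp [join, h, h']
      rw [this]
      exact scott_top
    · have : join F G = Set.univ := by
        ext w
        simp only [join, Set.mem_ofPred_eq, Set.mem_univ, iff_true]
        exact ⟨⊤, htopF, w, by simp [h'], (top_inf_eq w).symm⟩
      rw [this]
      exact ⟨fun _ _ _ _ => trivial, fun D hD _ _ => ⟨_, hD.some_mem, trivial⟩⟩
  · have : join F G = Set.univ := by
      ext w
      simp only [join, Set.mem_ofPred_eq, Set.mem_univ, iff_true]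
      exact ⟨w, by simp [h], ⊤, htopG, (inf_top_eq w).symm⟩
    rw [this]
    exact ⟨fun _ _ _ _ => trivial, fun D hD _ _ => ⟨_, hD.some_mem, trivial⟩⟩

theorem not_spatial [Nontrivial B] (hB : ∀ x : B, x ≠ ⊤ → ∃ y, x < y ∧ y < ⊤)
    (X : Type v) [TopologicalSpace X] : IsEmpty (WithTop B ≃o Opens X) := by
  refine ⟨fun e => ?_⟩
  have key : ∀ x : X, x ∉ e ((⊤ : B) : WithTop B) := by
    intro x
    set V : Opens X := ⟨(closure {x})ᶜ, isClosed_closure.isOpen_compl⟩ with hV
    have hmem : ∀ U : Opens X, ¬ U ≤ V → x ∈ U := by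
      intro U hU
      by_contra hx
      apply hU
      intro y hy
      change y ∉ closure {x}
      intro hyc
      have := mem_closure_iff.1 hyc U U.2 hy
      obtain ⟨z, hz1, hz2⟩ := this
      rw [Set.mem_singleton_iff] at hz2
      exact hx (hz2 ▸ hz1)
    have hxV : x ∉ V := by
      intro h
      exact h (subset_closure rfl)
    have hprime : ∀ U₁ U₂ : Opens X, U₁ ⊓ U₂ ≤ V → U₁ ≤ V ∨ U₂ ≤ V := by
      intro U₁ U₂ h
      by_contra hne
      push Not at hne
      exact hxV (h ⟨hmem _ hne.1, hmem _ hne.2⟩)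
    have hp : ∀ a b : WithTop B, a ⊓ b ≤ e.symm V → a ≤ e.symm V ∨ b ≤ e.symm V := by
      intro a b hab
      have h1 : e (a ⊓ b) ≤ V := by rw [← e.le_symm_apply]; exact hab
      rw [e.map_inf] at h1
      rcases hprime _ _ h1 with h | h
      · left; rw [e.le_symm_apply]; exact h
      · right; rw [e.le_symm_apply]; exact h
    have hsymm : e.symm V = ((⊤ : B) : WithTop B) := by
      cases hq : e.symm V with
      | top =>
        exfalso
        have : V = ⊤ := by
          rw [← e.apply_symm_apply V, hq, map_top]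
        rw [this] at hxV
        exact hxV trivial
      | coe p =>
        by_cases hpt : p = ⊤
        · rw [hpt]
        exfalso
        obtain ⟨y, hpy, hy⟩ := hB p hpt
        have h2 : p < p ⊔ yᶜ := by
          refine lt_of_le_of_ne le_sup_left ?_
          intro h
          have h3 : yᶜ ≤ p := by rw [h]; exact le_sup_right
          have h4 : y ⊔ yᶜ ≤ y := sup_le le_rfl (h3.trans hpy.le)
          rw [sup_compl_eq_top] at h4
          exact absurd h4 (not_le_of_gt hy)
        have h5 : (y : WithTop B) ⊓ ((p ⊔ yᶜ : B) : WithTop B) ≤ e.symm V := by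
          rw [hq, ← WithTop.coe_inf, inf_sup_left, inf_compl_eq_bot, sup_bot_eq,
            inf_eq_right.2 hpy.le]
        rcases hp _ _ h5 with h | h
        · rw [hq] at h
          exact absurd (WithTop.coe_le_coe.1 h) (not_le_of_gt hpy)
        · rw [hq] at h
          exact absurd (WithTop.coe_le_coe.1 h) (not_le_of_gt h2)
    rw [← hsymm, e.apply_symm_apply]
    exact hxV
  have h1 : e ((⊤ : B) : WithTop B) = ⊥ := by
    apply le_bot_iff.1
    intro x hx
    exact absurd hx (key x)
  have h2 : ((⊤ : B) : WithTop B) = ⊥ := by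
    apply e.injective
    rw [h1, map_bot]
  have h3 : ((⊤ : B) : WithTop B) = ((⊥ : B) : WithTop B) := h2
  exact absurd (WithTop.coe_injective h3) top_ne_bot

end General

/-! ## The complete Boolean algebra of regular open subsets of the line -/

section RegularOpen

/-- The Boolean algebra of regular open subsets of `ℝ` is complete. -/
@[instance_reducible]
noncomputable def cba : CompleteBooleanAlgebra (Heyting.Regular (Opens ℝ)) where
  __ := (inferInstance : BooleanAlgebra (Heyting.Regular (Opens ℝ)))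
  sSup s := Heyting.Regular.toRegular (sSup ((fun x : Heyting.Regular (Opens ℝ) => (x : Opens ℝ)) '' s))
  sInf s := (Heyting.Regular.toRegular
    (sSup ((fun x : Heyting.Regular (Opens ℝ) => ((xᶜ : Heyting.Regular (Opens ℝ)) : Opens ℝ)) '' s)))ᶜ
  isLUB_sSup s := by
    constructor
    · intro a ha
      rw [← Heyting.Regular.coe_le_coe, Heyting.Regular.coe_toRegular]
      exact le_trans (le_sSup (Set.mem_image_of_mem _ ha)) le_compl_compl
    · intro a ha
      refine (Heyting.Regular.gi.gc _ _).2 ?_
      refine sSup_le ?_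
      rintro _ ⟨b, hb, rfl⟩
      exact Heyting.Regular.coe_le_coe.2 (ha hb)
  isGLB_sInf s := by
    constructor
    · intro a ha
      apply compl_le_of_compl_le
      rw [← Heyting.Regular.coe_le_coe, Heyting.Regular.coe_toRegular]
      refine le_trans (le_sSup (Set.mem_image_of_mem
        (fun x : Heyting.Regular (Opens ℝ) => ((xᶜ : Heyting.Regular (Opens ℝ)) : Opens ℝ)) ha))
        le_compl_compl
    · intro a ha
      apply le_compl_of_le_compl
      refine (Heyting.Regular.gi.gc _ _).2 ?_
      refine sSup_le ?_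
      rintro _ ⟨b, hb, rfl⟩
      exact Heyting.Regular.coe_le_coe.2 (compl_le_compl (ha hb))

theorem no_coatom (x : Heyting.Regular (Opens ℝ)) (hx : x ≠ ⊤) : ∃ y, x < y ∧ y < ⊤ := by
  -- it is enough to find a nonzero element strictly below the complement
  have hc : xᶜ ≠ ⊥ := by
    intro h
    apply hx
    rw [← compl_compl x, h, compl_bot]
  suffices h : ∃ z : Heyting.Regular (Opens ℝ), z ≠ ⊥ ∧ z < xᶜ by
    obtain ⟨z, hz, hzx⟩ := h
    refine ⟨zᶜ, ?_, ?_⟩
    · have := compl_lt_compl_iff_lt.2 hzx
      rwa [compl_compl] at this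
    · exact lt_of_le_of_ne le_top (fun h => hz (by rw [← compl_compl z, h, compl_top]))
  set U : Opens ℝ := ((xᶜ : Heyting.Regular (Opens ℝ)) : Opens ℝ) with hU
  have hUne : U ≠ ⊥ := by
    intro h
    apply hc
    apply Heyting.Regular.coe_injective
    exact h
  obtain ⟨p, hp⟩ : ∃ p : ℝ, p ∈ U := by
    by_contra h
    push Not at h
    apply hUne
    apply le_bot_iff.1
    intro q hq
    exact absurd hq (h q)
  obtain ⟨r, hr, hball⟩ := Metric.isOpen_iff.1 U.2 p hp
  let V₁ : Opens ℝ := ⟨Set.Ioo (p - r) p, isOpen_Ioo⟩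
  let V₂ : Opens ℝ := ⟨Set.Ioo p (p + r), isOpen_Ioo⟩
  have hV₁ : V₁ ≤ U := by
    intro q hq
    apply hball
    rw [Metric.mem_ball, Real.dist_eq, abs_lt]
    exact ⟨by linarith [hq.1], by linarith [hq.2]⟩
  have hV₂ : V₂ ≤ U := by
    intro q hq
    apply hball
    rw [Metric.mem_ball, Real.dist_eq, abs_lt]
    exact ⟨by linarith [hq.1], by linarith [hq.2]⟩
  have hdisj : Disjoint V₁ V₂ := by
    rw [disjoint_iff_inf_le]
    rintro q ⟨h1, h2⟩
    exact absurd h1.2 (not_lt.2 h2.1.le)
  have hdisj' : Disjoint V₁ᶜᶜ V₂ := by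
    rw [← le_compl_iff_disjoint_right] at *
    have h1 := compl_le_compl (compl_le_compl hdisj)
    rwa [compl_compl_compl] at h1
  refine ⟨Heyting.Regular.toRegular V₁, ?_, ?_⟩
  · intro h
    have h1 : V₁ ≤ ⊥ := by
      have := congrArg (fun z : Heyting.Regular (Opens ℝ) => (z : Opens ℝ)) h
      simp only [Heyting.Regular.coe_toRegular, Heyting.Regular.coe_bot] at this
      rw [← this]
      exact le_compl_compl
    have h2 : (p - r / 2) ∈ V₁ := ⟨by linarith, by linarith⟩
    exact h1 h2
  · refine lt_of_le_of_ne ?_ ?_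
    · exact (Heyting.Regular.gi.gc _ _).2 hV₁
    · intro h
      have h1 : V₁ᶜᶜ = U := by
        have := congrArg (fun z : Heyting.Regular (Opens ℝ) => (z : Opens ℝ)) h
        simp only [Heyting.Regular.coe_toRegular] at this
        exact this
      rw [h1] at hdisj'
      have h2 : V₂ ≤ ⊥ := hdisj'.le_bot.trans' (le_inf hV₂ le_rfl)
      have h3 : (p + r / 2) ∈ V₂ := ⟨by linarith, by linarith⟩
      exact h2 h3

end RegularOpen

/-- There is a temperate frame which is not isomorphic to the frame of open sets of any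
topological space. -/
theorem result : ∃ (L : Type) (_ : Order.Frame L), Temperate L ∧
    ∀ (X : Type v) [TopologicalSpace X], IsEmpty (L ≃o Opens X) := by
  let _ : CompleteBooleanAlgebra (Heyting.Regular (Opens ℝ)) := cba
  refine ⟨WithTop (Heyting.Regular (Opens ℝ)), frame, ?_, ?_⟩
  · exact temperate no_coatom
  · intro X _
    have : Nontrivial (Heyting.Regular (Opens ℝ)) := by
      refine ⟨⊤, ⊥, ?_⟩
      intro h
      have : (⊤ : Opens ℝ) ≤ ⊥ := by
        have := congrArg (fun z : Heyting.Regular (Opens ℝ) => (z : Opens ℝ)) h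
        simp only [Heyting.Regular.coe_top, Heyting.Regular.coe_bot] at this
        exact this.le
      exact this (show (0 : ℝ) ∈ (⊤ : Opens ℝ) from trivial)
    exact not_spatial no_coatom X

end Pool.Agent.Results.MP_f10132_gt.NonSpatial
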